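import Pool.Agent.Helper48.AA.Goals

/-!
# Project AA (MP_6c0525_nt): packet WN, windows
-/

set_option autoImplicit false

open Finset

open scoped Classical

namespace Pool.Agent.Helper94.AA

open Pool.Agent.Helper48.AA
open Pool.Agent.Helper10.CB (P)

theorem P_lt {m m' : ℕ} (hm : 1 ≤ m) (h : m < m') : P m < P m' := by
  unfold P
  exact Nat.nth_strictMono Nat.infinite_setOf_prime (by omega)

theorem P_le' {m m' : ℕ} (hm : 1 ≤ m) (h : m ≤ m') : P m ≤ P m' := by
  rcases h.eq_or_lt with rfl | h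
  · exact le_rfl
  · exact (P_lt hm h).le

/-- The square of a sum. -/
theorem sq_sum (a : ℕ → ℝ) (w : ℕ) : (∑ i ∈ range w, a i) ^ 2 =
    ∑ i ∈ range w, a i ^ 2 + 2 * ∑ j ∈ Ico 1 w, ∑ i ∈ range (w - j), a i * a (i + j) := by
  induction w with
  | zero => simp
  | succ w ih =>
    have h1 : ∀ j ∈ Ico 1 (w + 1), ∑ i ∈ range (w + 1 - j), a i * a (i + j) =
        ∑ i ∈ range (w - j), a i * a (i + j) + a (w - j) * a w := by
      intro j hj
      rw [mem_Ico] at hj
      have e : w + 1 - j = (w - j) + 1 := by omega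
      have e2 : w - j + j = w := by omega
      rw [e, sum_range_succ, e2]
    have h2 : ∑ j ∈ Ico 1 (w + 1), ∑ i ∈ range (w - j), a i * a (i + j) =
        ∑ j ∈ Ico 1 w, ∑ i ∈ range (w - j), a i * a (i + j) := by
      rcases Nat.eq_zero_or_pos w with h0 | h0
      · subst h0; simp
      · rw [Finset.sum_Ico_succ_top (by omega : 1 ≤ w)]
        simp
    have h3 : ∑ j ∈ Ico 1 (w + 1), a (w - j) * a w = (∑ i ∈ range w, a i) * a w := by
      rw [← Finset.sum_mul]
      refine congrArg (fun s => s * a w) ?_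
      refine Finset.sum_nbij' (fun j => w - j) (fun i => w - i) ?_ ?_ ?_ ?_ ?_
      · intro j hj
        rw [mem_Ico] at hj
        rw [mem_range]
        show w - j < w
        omega
      · intro i hi
        rw [mem_range] at hi
        rw [mem_Ico]
        show 1 ≤ w - i ∧ w - i < w + 1
        omega
      · intro j hj
        rw [mem_Ico] at hj
        show w - (w - j) = j
        omega
      · intro i hi
        rw [mem_range] at hi
        show w - (w - i) = i
        omega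
      · intro j _
        rfl
    rw [sum_range_succ, add_sq, ih, sum_range_succ (fun i => a i ^ 2), sum_congr rfl h1,
      sum_add_distrib, h2, h3]
    ring

/-- The terms with `i = i'`. -/
theorem diag (KK : Finset ℕ) (F : ℕ → ℕ → ℝ) (w K i x : ℕ) (hKK : KK ⊆ Icc 1 K) (hi : i < w) :
    ∑ t ∈ range (K + w), (if i ≤ t ∧ t - i ∈ KK then F (t - i) x else 0) ^ 2 =
      ∑ k ∈ KK, F k x ^ 2 := by
  have h1 : ∀ t ∈ range (K + w), (if i ≤ t ∧ t - i ∈ KK then F (t - i) x else 0) ^ 2 =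
      if i ≤ t ∧ t - i ∈ KK then F (t - i) x ^ 2 else 0 := by
    intro t _
    by_cases h : i ≤ t ∧ t - i ∈ KK
    · rw [if_pos h, if_pos h]
    · rw [if_neg h, if_neg h]; ring
  rw [sum_congr rfl h1, ← sum_filter]
  refine Finset.sum_nbij' (fun t => t - i) (fun k => k + i) ?_ ?_ ?_ ?_ ?_
  · intro t ht
    exact (mem_filter.1 ht).2.2
  · intro k hk
    have hk' := mem_Icc.1 (hKK hk)
    rw [mem_filter, mem_range]
    show k + i < K + w ∧ i ≤ k + i ∧ k + i - i ∈ KK
    rw [Nat.add_sub_cancel]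
    exact ⟨by omega, by omega, hk⟩
  · intro t ht
    have := (mem_filter.1 ht).2.1
    show t - i + i = t
    omega
  · intro k _
    show k + i - i = k
    omega
  · intro t _
    rfl

/-- The terms with `i' = i + j`. -/
theorem offd (KK : Finset ℕ) (F : ℕ → ℕ → ℝ) (w K i j x y : ℕ) (hKK : KK ⊆ Icc 1 K)
    (hi : i + j < w) :
    ∑ t ∈ range (K + w), (if i ≤ t ∧ t - i ∈ KK then F (t - i) x else 0) *
      (if i + j ≤ t ∧ t - (i + j) ∈ KK then F (t - (i + j)) y else 0) = cc KK F j x y := by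
  have h1 : ∀ t ∈ range (K + w), (if i ≤ t ∧ t - i ∈ KK then F (t - i) x else 0) *
      (if i + j ≤ t ∧ t - (i + j) ∈ KK then F (t - (i + j)) y else 0) =
      if (i + j ≤ t ∧ t - (i + j) ∈ KK ∧ t - i ∈ KK) then
        F (t - i) x * F (t - (i + j)) y else 0 := by
    intro t _
    by_cases h : i + j ≤ t ∧ t - (i + j) ∈ KK ∧ t - i ∈ KK
    · rw [if_pos h, if_pos ⟨by omega, h.2.2⟩, if_pos ⟨h.1, h.2.1⟩]
    · rw [if_neg h]
      by_cases h2 : i ≤ t ∧ t - i ∈ KK
      · by_cases h3 : i + j ≤ t ∧ t - (i + j) ∈ KK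
        · exact absurd ⟨h3.1, h3.2, h2.2⟩ h
        · rw [if_neg h3, mul_zero]
      · rw [if_neg h2, zero_mul]
  rw [sum_congr rfl h1, ← sum_filter]
  unfold cc
  refine Finset.sum_nbij' (fun t => t - (i + j)) (fun k => k + (i + j)) ?_ ?_ ?_ ?_ ?_
  · intro t ht
    obtain ⟨h1, h2, h3, h4⟩ := mem_filter.1 ht
    rw [mem_filter]
    show t - (i + j) ∈ KK ∧ t - (i + j) + j ∈ KK
    have e : t - (i + j) + j = t - i := by omega
    rw [e]
    exact ⟨h3, h4⟩
  · intro k hk
    obtain ⟨hk1, hk2⟩ := mem_filter.1 hk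
    have hk' := mem_Icc.1 (hKK hk1)
    rw [mem_filter, mem_range]
    show k + (i + j) < K + w ∧ i + j ≤ k + (i + j) ∧ k + (i + j) - (i + j) ∈ KK ∧
      k + (i + j) - i ∈ KK
    have e1 : k + (i + j) - (i + j) = k := by omega
    have e2 : k + (i + j) - i = k + j := by omega
    rw [e1, e2]
    exact ⟨by omega, by omega, hk1, hk2⟩
  · intro t ht
    have := (mem_filter.1 ht).2.1
    show t - (i + j) + (i + j) = t
    omega
  · intro k _
    show k + (i + j) - (i + j) = k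
    omega
  · intro t ht
    have := (mem_filter.1 ht).2.1
    show F (t - i) x * F (t - (i + j)) y = F (t - (i + j) + j) x * F (t - (i + j)) y
    have e : t - (i + j) + j = t - i := by omega
    rw [e]

/-- The square of `GM`, summed over `t`. -/
theorem GM_sq (KK : Finset ℕ) (F : ℕ → ℕ → ℝ) (w K M : ℕ) (hKK : KK ⊆ Icc 1 K) :
    ∑ t ∈ range (K + w), (GM KK F w M t) ^ 2 =
      ∑ i ∈ range w, ∑ k ∈ KK, F k (P (M + i)) ^ 2 +
      2 * ∑ j ∈ Ico 1 w, ∑ i ∈ range (w - j), cc KK F j (P (M + i)) (P (M + (i + j))) := by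
  have h1 : ∀ t ∈ range (K + w), (GM KK F w M t) ^ 2 =
      ∑ i ∈ range w, (if i ≤ t ∧ t - i ∈ KK then F (t - i) (P (M + i)) else 0) ^ 2 +
      2 * ∑ j ∈ Ico 1 w, ∑ i ∈ range (w - j),
        (if i ≤ t ∧ t - i ∈ KK then F (t - i) (P (M + i)) else 0) *
        (if i + j ≤ t ∧ t - (i + j) ∈ KK then F (t - (i + j)) (P (M + (i + j))) else 0) := by
    intro t _
    exact sq_sum (fun i => if i ≤ t ∧ t - i ∈ KK then F (t - i) (P (M + i)) else 0) w
  rw [sum_congr rfl h1, sum_add_distrib, ← mul_sum, sum_comm]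
  refine congrArg₂ (· + ·) ?_ (congrArg (fun s => 2 * s) ?_)
  · refine sum_congr rfl fun i hi => ?_
    exact diag KK F w K i (P (M + i)) hKK (mem_range.1 hi)
  · rw [sum_comm]
    refine sum_congr rfl fun j hj => ?_
    rw [sum_comm]
    refine sum_congr rfl fun i hi => ?_
    rw [mem_Ico] at hj
    rw [mem_range] at hi
    exact offd KK F w K i j (P (M + i)) (P (M + (i + j))) hKK (by omega)

theorem gWN : StmtWN := by
  intro KK F w K N X G Mg hKK hX hMg
  have hP : ∀ M ∈ Mg, ∀ i < w, P (M + i) ∈ Icc 1 X := by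
    intro M hM i hi
    obtain ⟨h1, h2, -⟩ := hMg M hM
    rw [mem_Icc]
    exact ⟨(Pool.Agent.Helper10.CB.P_prime _).one_lt.le,
      (P_le' (by omega) (by omega)).trans hX⟩
  have hinj : ∀ i : ℕ, Set.InjOn (fun M => P (M + i)) (Mg : Set ℕ) := by
    intro i M hM M' hM' h
    have h1 := (hMg M hM).1
    have h1' := (hMg M' hM').1
    rcases lt_trichotomy M M' with h2 | h2 | h2
    · exact absurd h (P_lt (by omega) (by omega : M + i < M' + i)).ne
    · exact h2
    · exact absurd h.symm (P_lt (by omega) (by omega : M' + i < M + i)).ne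
  have himg : ∀ (i : ℕ), i < w → ∀ f : ℕ → ℝ, (∀ x, 0 ≤ f x) →
      ∑ M ∈ Mg, f (P (M + i)) ≤ ∑ x ∈ Icc 1 X, f x := by
    intro i hi f hf
    have e : ∑ M ∈ Mg, f (P (M + i)) = ∑ x ∈ Mg.image (fun M => P (M + i)), f x :=
      (sum_image (hinj i)).symm
    rw [e]
    refine sum_le_sum_of_subset_of_nonneg ?_ fun x _ _ => hf x
    intro x hx
    obtain ⟨M, hM, rfl⟩ := mem_image.1 hx
    exact hP M hM i hi
  have h1 : ∑ M ∈ Mg, ∑ i ∈ range w, ∑ k ∈ KK, F k (P (M + i)) ^ 2 ≤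
      w * ∑ x ∈ Icc 1 X, ∑ k ∈ KK, F k x ^ 2 := by
    rw [sum_comm]
    calc ∑ i ∈ range w, ∑ M ∈ Mg, ∑ k ∈ KK, F k (P (M + i)) ^ 2
        ≤ ∑ _i ∈ range w, ∑ x ∈ Icc 1 X, ∑ k ∈ KK, F k x ^ 2 := by
          refine sum_le_sum fun i hi => ?_
          exact himg i (mem_range.1 hi) (fun x => ∑ k ∈ KK, F k x ^ 2)
            fun x => sum_nonneg fun k _ => sq_nonneg _
      _ = w * ∑ x ∈ Icc 1 X, ∑ k ∈ KK, F k x ^ 2 := by
          rw [sum_const, card_range, nsmul_eq_mul]
  have h2 : ∑ M ∈ Mg, ∑ j ∈ Ico 1 w, ∑ i ∈ range (w - j),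
      cc KK F j (P (M + i)) (P (M + (i + j))) ≤
      w * ∑ j ∈ Ico 1 w, ∑ x ∈ Icc 1 X, ∑ g ∈ Icc 1 G, |cc KK F j x (x + g)| := by
    rw [sum_comm, mul_sum]
    refine sum_le_sum fun j hj => ?_
    rw [mem_Ico] at hj
    rw [sum_comm]
    calc ∑ i ∈ range (w - j), ∑ M ∈ Mg, cc KK F j (P (M + i)) (P (M + (i + j)))
        ≤ ∑ _i ∈ range (w - j), ∑ x ∈ Icc 1 X, ∑ g ∈ Icc 1 G, |cc KK F j x (x + g)| := by
          refine sum_le_sum fun i hi => ?_
          rw [mem_range] at hi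
          refine le_trans (sum_le_sum fun M hM => ?_)
            (himg i (by omega) (fun x => ∑ g ∈ Icc 1 G, |cc KK F j x (x + g)|)
              fun x => sum_nonneg fun g _ => abs_nonneg _)
          obtain ⟨hM1, hM2, hM3⟩ := hMg M hM
          have a1 : P (M + i) < P (M + (i + j)) := P_lt (by omega) (by omega)
          have a2 : P (M + (i + j)) ≤ P (M + w) := P_le' (by omega) (by omega)
          have a3 : P M ≤ P (M + i) := P_le' hM1 (by omega)
          have e : P (M + (i + j)) = P (M + i) + (P (M + (i + j)) - P (M + i)) := by omega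
          calc cc KK F j (P (M + i)) (P (M + (i + j)))
              ≤ |cc KK F j (P (M + i)) (P (M + (i + j)))| := le_abs_self _
            _ = |cc KK F j (P (M + i)) (P (M + i) + (P (M + (i + j)) - P (M + i)))| := by
                rw [← e]
            _ ≤ ∑ g ∈ Icc 1 G, |cc KK F j (P (M + i)) (P (M + i) + g)| :=
                single_le_sum (f := fun g => |cc KK F j (P (M + i)) (P (M + i) + g)|)
                  (fun g _ => abs_nonneg _) (mem_Icc.2 ⟨by omega, by omega⟩)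
      _ = ((w - j : ℕ) : ℝ) * ∑ x ∈ Icc 1 X, ∑ g ∈ Icc 1 G, |cc KK F j x (x + g)| := by
          rw [sum_const, card_range, nsmul_eq_mul]
      _ ≤ w * ∑ x ∈ Icc 1 X, ∑ g ∈ Icc 1 G, |cc KK F j x (x + g)| := by
          refine mul_le_mul_of_nonneg_right ?_
            (sum_nonneg fun x _ => sum_nonneg fun g _ => abs_nonneg _)
          exact_mod_cast Nat.sub_le w j
  calc ∑ M ∈ Mg, ∑ t ∈ range (K + w), (GM KK F w M t) ^ 2
      = ∑ M ∈ Mg, (∑ i ∈ range w, ∑ k ∈ KK, F k (P (M + i)) ^ 2 +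
        2 * ∑ j ∈ Ico 1 w, ∑ i ∈ range (w - j), cc KK F j (P (M + i)) (P (M + (i + j)))) :=
        sum_congr rfl fun M _ => GM_sq KK F w K M hKK
    _ = ∑ M ∈ Mg, ∑ i ∈ range w, ∑ k ∈ KK, F k (P (M + i)) ^ 2 +
        2 * ∑ M ∈ Mg, ∑ j ∈ Ico 1 w, ∑ i ∈ range (w - j),
          cc KK F j (P (M + i)) (P (M + (i + j))) := by
        rw [sum_add_distrib, ← mul_sum]
    _ ≤ _ := by
        have := mul_le_mul_of_nonneg_left h2 (by norm_num : (0 : ℝ) ≤ 2)
        linarith

end Pool.Agent.Helper94.AA
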